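import Pool.Agent.Y920.QB.Qs

set_option autoImplicit false

/-! Project QB, job QB-A1: a subgroup of bounded index with values in one value set. -/

namespace Pool.Agent.Y455.QB

open Pool.Agent.H315R3.ETC Pool.Agent.Y920.QB

section

variable {S : QData} (hS : IsQuat S)

include hS

theorem q_one (a : S.G) : S.q a 1 = S.zero := by
  have h := (hS.qs3 a a a).1 rfl
  rwa [hS.exp2] at h

theorem mul_mul_self (a b : S.G) : a * (a * b) = b := by
  rw [← mul_assoc, hS.exp2, one_mul]

theorem inv_self (a : S.G) : a⁻¹ = a := inv_eq_of_mul_eq_one_left (hS.exp2 a)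

/-- the elements which represent zero with `a` -/
def DD (a : S.G) : Subgroup S.G where
  carrier := {b | S.q a b = S.zero}
  one_mem' := q_one hS a
  mul_mem' := by
    intro b c hb hc
    exact (hS.qs3 a b c).1 (Eq.trans hb (Eq.symm hc))
  inv_mem' := by
    intro b hb
    rw [inv_self hS]
    exact hb

theorem mem_DD {a b : S.G} : b ∈ DD hS a ↔ S.q a b = S.zero := Iff.rfl

theorem mem_comm {a b : S.G} : b ∈ DD hS a ↔ a ∈ DD hS b := by
  rw [mem_DD, mem_DD, hS.qs2]

theorem q_eq_iff {a b c : S.G} : S.q a b = S.q a c ↔ b * c ∈ DD hS a := hS.qs3 a b c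

/-- the number of the values -/
theorem card_val (a : S.G) : (Set.range (S.q a)).ncard = (DD hS a).index := by
  rw [Subgroup.index, ← Nat.card_coe_set_eq]
  refine Nat.card_congr ((Setoid.quotientKerEquivRange (S.q a)).symm.trans
    (Quotient.congrRight ?_))
  intro b c
  rw [Setoid.ker_def, QuotientGroup.leftRel_apply, inv_self hS]
  exact q_eq_iff hS

theorem pow_two_val [Finite S.G] (a : S.G) : ∃ n, (Set.range (S.q a)).ncard = 2 ^ n := by
  have hp : Fact (Nat.Prime 2) := ⟨Nat.prime_two⟩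
  have h : IsPGroup 2 S.G := fun g => ⟨1, by rw [pow_one, pow_two, hS.exp2]⟩
  obtain ⟨n, hn⟩ := h.index (DD hS a)
  exact ⟨n, by rw [card_val hS, hn]⟩

/-- independence -/
theorem indVal_of {u x : S.G} (h : DD hS u ⊔ DD hS x = ⊤) : IndVal S u x := by
  intro y y'
  have h1 : y * y' ∈ DD hS u ⊔ DD hS x := by rw [h]; trivial
  obtain ⟨d, hd, d', hd', h2⟩ := Subgroup.mem_sup.1 h1
  refine ⟨y * d, ?_, ?_⟩
  · rw [q_eq_iff hS, mul_comm y d, mul_assoc, hS.exp2, mul_one]
    exact hd
  · rw [q_eq_iff hS]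
    have h3 : y * d * y' = d' := by
      calc y * d * y' = d * (y * y') := by rw [mul_comm y d, mul_assoc]
        _ = d * (d * d') := by rw [h2]
        _ = d' := mul_mul_self hS d d'
    rw [h3]
    exact hd'

/-- independence on a subgroup of bounded index -/
theorem exists_indep [Finite S.G] (k : ℕ) (hk : ∀ a, (Set.range (S.q a)).ncard ≤ 2 ^ k) (m : ℕ) :
    ∀ H : Subgroup S.G, H.index ≤ 2 ^ m → ∃ U : Subgroup S.G, (∀ u ∈ U, DD hS u ⊔ H = ⊤) ∧
      U.index ≤ (2 ^ k) ^ m := by
  induction m with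
  | zero =>
    intro H hH
    have h1 : H = ⊤ := by
      rw [← Subgroup.index_eq_one]
      have := H.index_ne_zero_of_finite
      omega
    exact ⟨⊤, fun u _ => by rw [h1, sup_top_eq], by rw [Subgroup.index_top, pow_zero]⟩
  | succ m ih =>
    intro H hH
    by_cases h1 : H = ⊤
    · exact ⟨⊤, fun u _ => by rw [h1, sup_top_eq], by
        rw [Subgroup.index_top]
        exact Nat.one_le_pow _ _ (by positivity)⟩
    · obtain ⟨z, hz⟩ : ∃ z, z ∉ H := by
        by_contra hcon
        push Not at hcon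
        exact h1 (eq_top_iff.2 fun z _ => hcon z)
      set H' := H ⊔ Subgroup.closure {z} with hH'
      have hle : H ≤ H' := le_sup_left
      have hzH' : z ∈ H' := (le_sup_right : _ ≤ H') (Subgroup.subset_closure rfl)
      have h2 : H'.index ≤ 2 ^ m := by
        have h3 := Subgroup.relIndex_mul_index hle
        have h4 : H.relIndex H' ≠ 0 := by
          intro h0
          rw [h0, zero_mul] at h3
          exact H.index_ne_zero_of_finite h3.symm
        have h5 : H.relIndex H' ≠ 1 := by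
          intro h0
          exact hz (Subgroup.relIndex_eq_one.1 h0 hzH')
        have h6 : 2 * H'.index ≤ H.index := by
          rw [← h3]
          exact Nat.mul_le_mul_right _ (by omega)
        rw [pow_succ] at hH
        omega
      obtain ⟨U', hU', hi⟩ := ih H' h2
      refine ⟨U' ⊓ DD hS z, ?_, ?_⟩
      · intro u hu
        have h3 := hU' u hu.1
        rw [eq_top_iff, ← h3]
        refine sup_le le_sup_left (sup_le le_sup_right ?_)
        rw [Subgroup.closure_le, Set.singleton_subset_iff]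
        exact (le_sup_left : DD hS u ≤ _) ((mem_comm hS).1 hu.2)
      · rw [pow_succ]
        refine Subgroup.index_inf_le.trans (Nat.mul_le_mul hi ?_)
        rw [← card_val hS]
        exact hk z

theorem exists_U [Finite S.G] (k : ℕ) (hk : ∀ a, (Set.range (S.q a)).ncard ≤ 2 ^ k) (x : S.G) :
    ∃ U : Subgroup S.G, (∀ u ∈ U, IndVal S u x) ∧ U.index ≤ 2 ^ (k ^ 2) := by
  obtain ⟨U, hU, hi⟩ := exists_indep hS k hk k (DD hS x) (by rw [← card_val hS]; exact hk x)
  refine ⟨U, fun u hu => indVal_of hS (hU u hu), ?_⟩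
  rwa [← pow_mul, ← pow_two] at hi

/-- the values of a product of independent elements -/
theorem val_sub {u a : S.G} (h : IndVal S u a) : Set.range (S.q u) ⊆ Set.range (S.q (u * a)) ∧
    Set.range (S.q a) ⊆ Set.range (S.q (u * a)) := by
  constructor
  · rintro _ ⟨y, rfl⟩
    obtain ⟨z, h1, h2⟩ := h y 1
    refine ⟨z, ?_⟩
    rw [q_one hS] at h2
    rw [← h1, hS.qs2, hS.qs2 u z, q_eq_iff hS, mul_comm u a, mul_assoc, hS.exp2, mul_one, mem_DD,
      hS.qs2]
    exact h2
  · rintro _ ⟨y, rfl⟩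
    obtain ⟨z, h1, h2⟩ := h 1 y
    refine ⟨z, ?_⟩
    rw [q_one hS] at h1
    rw [← h2, hS.qs2, hS.qs2 a z, q_eq_iff hS, mul_assoc, hS.exp2, mul_one, mem_DD, hS.qs2]
    exact h1

/-- `SubVal` from independence and a bound for the number of values -/
theorem subVal_of [Finite S.G] {u a : S.G} (h : IndVal S u a)
    (hc : (Set.range (S.q (u * a))).ncard ≤ (Set.range (S.q a)).ncard) : SubVal S u a := by
  obtain ⟨h1, h2⟩ := val_sub hS h
  have h3 : Set.range (S.q a) = Set.range (S.q (u * a)) :=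
    Set.eq_of_subset_of_ncard_le h2 hc (Set.finite_range _)
  refine ⟨fun x => ?_, ?_⟩
  · have h4 : S.q u x ∈ Set.range (S.q a) := by
      rw [h3]
      exact h1 ⟨x, rfl⟩
    obtain ⟨y, hy⟩ := h4
    exact ⟨y, hy.symm⟩
  · intro x x' y y' hxy hxy'
    obtain ⟨z, hz1, hz2⟩ := h x y
    obtain ⟨z', hz1', hz2'⟩ := h x' y'
    have key : ∀ w, S.q u w = S.q a w → w ∈ DD hS (u * a) := by
      intro w hw
      rw [hS.qs2 u, hS.qs2 a] at hw
      rw [mem_comm hS]
      exact (q_eq_iff hS).1 hw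
    have k1 := key z (by rw [hz1, hz2, hxy])
    have k2 := key z' (by rw [hz1', hz2', hxy'])
    have k3 : S.q u (z * z') = S.q a (z * z') := by
      rw [hS.qs2 u, hS.qs2 a, q_eq_iff hS, ← mem_comm hS]
      exact (DD hS (u * a)).mul_mem k1 k2
    have k4 : ∀ b x x' z z' : S.G, S.q b z = S.q b x → S.q b z' = S.q b x' →
        S.q b (x * x') = S.q b (z * z') := by
      intro b x x' z z' h1 h2
      rw [q_eq_iff hS] at h1 h2 ⊢
      have e : x * x' * (z * z') = (z * x) * (z' * x') := by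
        rw [mul_mul_mul_comm, mul_comm x z, mul_comm x' z']
      rw [e]
      exact (DD hS b).mul_mem h1 h2
    rw [k4 u x x' z z' hz1 hz1', k4 a y y' z z' hz2 hz2', k3]

/-- the induction -/
theorem step [Finite S.G] (k : ℕ) (hk : ∀ a, (Set.range (S.q a)).ncard ≤ 2 ^ k) (m : ℕ) :
    ∀ (U : Subgroup S.G) (a : S.G), (∀ u ∈ U, SubVal S u a) →
      (Set.range (S.q a)).ncard ≤ 2 ^ m →
      ∃ (U₁ : Subgroup S.G) (a₁ : S.G), (∀ u ∈ U₁, SubVal S u a₁) ∧
        (∀ x, ∃ w ∈ U₁, SubVal S a₁ w ∧ IndVal S w x) ∧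
        U₁.index ≤ U.index * 2 ^ (2 * k ^ 2 * m) := by
  -- the reduction
  have main : ∀ (U : Subgroup S.G) (a : S.G), (∀ u ∈ U, SubVal S u a) →
      (∀ x, ∃ w ∈ U, SubVal S a w ∧ IndVal S w x) ∨
      ∃ (U₂ : Subgroup S.G) (a₂ : S.G), (∀ u ∈ U₂, SubVal S u a₂) ∧
        (Set.range (S.q a₂)).ncard < (Set.range (S.q a)).ncard ∧
        U₂.index ≤ U.index * 2 ^ (2 * k ^ 2) := by
    intro U a hU
    by_cases hgood : ∀ x, ∃ w ∈ U, SubVal S a w ∧ IndVal S w x
    · exact Or.inl hgood
    · right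
      push Not at hgood
      obtain ⟨x, hx⟩ := hgood
      obtain ⟨Ux, hUx, hix⟩ := exists_U hS k hk x
      obtain ⟨a', ha', hmax⟩ := Set.exists_max_image ((U ⊓ Ux : Subgroup S.G) : Set S.G)
        (fun b => (Set.range (S.q b)).ncard) (Set.toFinite _) ⟨1, one_mem _⟩
      obtain ⟨Ua, hUa, hia⟩ := exists_U hS k hk a'
      have ha'U : a' ∈ U := (Subgroup.mem_inf.1 ha').1
      have ha'x : a' ∈ Ux := (Subgroup.mem_inf.1 ha').2
      refine ⟨(U ⊓ Ux) ⊓ Ua, a', ?_, ?_, ?_⟩
      · intro u hu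
        exact subVal_of hS (hUa u hu.2) (hmax _ ((U ⊓ Ux).mul_mem hu.1 ha'))
      · have h1 := hU a' ha'U
        have h2 : Set.range (S.q a') ⊆ Set.range (S.q a) := by
          rintro _ ⟨y, rfl⟩
          obtain ⟨z, hz⟩ := h1.1 y
          exact ⟨z, hz.symm⟩
        have h3 := Set.ncard_le_ncard h2 (Set.finite_range _)
        refine lt_of_le_of_ne h3 fun h4 => ?_
        have h5 : Set.range (S.q a') = Set.range (S.q a) :=
          Set.eq_of_subset_of_ncard_le h2 h4.symm.le (Set.finite_range _)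
        refine hx a' ha'U ⟨fun y => ?_, ?_⟩ (hUx a' ha'x)
        · have h6 : S.q a y ∈ Set.range (S.q a') := by
            rw [h5]
            exact ⟨y, rfl⟩
          obtain ⟨z, hz⟩ := h6
          exact ⟨z, hz.symm⟩
        · intro y y' z z' e1 e2
          exact (h1.2 z z' y y' e1.symm e2.symm).symm
      · have e : 2 ^ (2 * k ^ 2) = 2 ^ (k ^ 2) * 2 ^ (k ^ 2) := by
          rw [← pow_add]
          congr 1
          ring
        rw [e, ← mul_assoc]
        exact Subgroup.index_inf_le.trans (Nat.mul_le_mul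
          (Subgroup.index_inf_le.trans (Nat.mul_le_mul le_rfl hix)) hia)
  have hpos : ∀ b : S.G, 1 ≤ (Set.range (S.q b)).ncard := by
    intro b
    exact (Set.ncard_pos (Set.finite_range _)).2 (Set.range_nonempty _)
  induction m with
  | zero =>
    intro U a hU ha
    rcases main U a hU with h | ⟨U₂, a₂, _, h, _⟩
    · exact ⟨U, a, hU, h, by simp⟩
    · have := hpos a₂
      rw [pow_zero] at ha
      omega
  | succ m ih =>
    intro U a hU ha
    rcases main U a hU with h | ⟨U₂, a₂, h1, h2, h3⟩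
    · exact ⟨U, a, hU, h, Nat.le_mul_of_pos_right _ (by positivity)⟩
    · have h4 : (Set.range (S.q a₂)).ncard ≤ 2 ^ m := by
        obtain ⟨n, hn⟩ := pow_two_val hS a₂
        rw [hn] at h2 ⊢
        have h5 := lt_of_lt_of_le h2 ha
        have h6 := (Nat.pow_lt_pow_iff_right (by norm_num : 1 < 2)).1 h5
        exact Nat.pow_le_pow_right (by norm_num) (by omega)
      obtain ⟨U₁, a₁, g1, g2, g3⟩ := ih U₂ a₂ h1 h4
      refine ⟨U₁, a₁, g1, g2, g3.trans ((Nat.mul_le_mul_right _ h3).trans (le_of_eq ?_))⟩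
      rw [mul_assoc, ← pow_add]
      congr 2
      ring

end

/-- **QB-A1** -/
theorem t_A1 : Pool.Agent.Y920.QB.S_A1 := by
  intro S hS _ k hk
  obtain ⟨a₀, -, hmax⟩ := Set.exists_max_image (Set.univ : Set S.G)
    (fun b => (Set.range (S.q b)).ncard) (Set.toFinite _) ⟨1, trivial⟩
  obtain ⟨U₀, hU₀, hi⟩ := exists_U hS k hk a₀
  obtain ⟨U₁, a₁, g1, g2, g3⟩ := step hS k hk k U₀ a₀
    (fun u hu => subVal_of hS (hU₀ u hu) (hmax _ trivial)) (hk a₀)
  refine ⟨U₁, a₁, g1, g2, g3.trans ((Nat.mul_le_mul_right _ hi).trans (le_of_eq ?_))⟩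
  rw [← pow_add]
  congr 1
  ring

end Pool.Agent.Y455.QB
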